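import Pool.Agent.Y996.NL.Stm

set_option autoImplicit false

/-!
# Project NL: geometry, from the plane to the lattice (S_GE, S_RT)
-/

namespace Pool.Agent.Y155.NL

open H974 Finset Pool.Agent.W819.EN Pool.Agent.W819.NC MeasureTheory
open Pool.Agent.Y996.RD Pool.Agent.Y996.NL

/-- numerical facts on the radii -/
theorem nums {ε d ρ : ℝ} (hε : 0 < ε) (hρ : 0 < ρ) (hρd : ρ ≤ d) (hd : 64 * ε ≤ d) :
    ∃ R a N : ℕ, R = ⌊d / (8 * ε)⌋₊ ∧ a = ia ε ρ ∧ ir ε ρ ⌊d / (8 * ε)⌋₊ = min N R ∧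
      8 ≤ R ∧ 8 * ε * R ≤ d ∧ 7 * d ≤ 64 * ε * R ∧ 32 * ε * a ≤ ρ ∧ ρ < 32 * ε * (a + 1) ∧
      ρ + 2 * ε ≤ ε * N ∧ ε * N ≤ ρ + 3 * ε ∧ 2 ≤ N ∧ (N : ℝ) ≤ ρ / ε + 3 := by
  have hd0 : 0 < d := hρ.trans_le hρd
  have h8 : 0 < 8 * ε := by positivity
  have h32 : 0 < 32 * ε := by positivity
  refine ⟨⌊d / (8 * ε)⌋₊, ia ε ρ, ⌈ρ / ε⌉₊ + 2, rfl, rfl, rfl, ?_, ?_, ?_, ?_, ?_, ?_, ?_, ?_, ?_⟩
  · refine Nat.le_floor ?_
    rw [le_div_iff₀ h8]
    push_cast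
    linarith
  · have h1 : (⌊d / (8 * ε)⌋₊ : ℝ) ≤ d / (8 * ε) := Nat.floor_le (by positivity)
    rw [le_div_iff₀ h8] at h1
    linarith
  · have h1 := Nat.lt_floor_add_one (d / (8 * ε))
    rw [div_lt_iff₀ h8] at h1
    nlinarith
  · have h1 : (⌊ρ / (32 * ε)⌋₊ : ℝ) ≤ ρ / (32 * ε) := Nat.floor_le (by positivity)
    rw [le_div_iff₀ h32] at h1
    unfold ia
    linarith
  · have h1 := Nat.lt_floor_add_one (ρ / (32 * ε))
    rw [div_lt_iff₀ h32] at h1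
    unfold ia
    linarith
  · have h1 := Nat.le_ceil (ρ / ε)
    rw [div_le_iff₀ hε] at h1
    push_cast
    linarith
  · have h1 := (Nat.ceil_lt_add_one (show 0 ≤ ρ / ε by positivity)).le
    have h2 : ε * (⌈ρ / ε⌉₊ : ℝ) ≤ ε * (ρ / ε + 1) := mul_le_mul_of_nonneg_left h1 hε.le
    have h3 : ε * (ρ / ε + 1) = ρ + ε := by field_simp
    push_cast
    linarith
  · omega
  · have h1 := (Nat.ceil_lt_add_one (show 0 ≤ ρ / ε by positivity)).le
    push_cast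
    linarith

theorem abs_of_far {x y : ℤ × ℤ} {n : ℕ}
    (h : y.1 ≤ x.1 - n ∨ x.1 + n ≤ y.1 ∨ y.2 ≤ x.2 - n ∨ x.2 + n ≤ y.2) :
    (n : ℤ) ≤ |y.1 - x.1| ∨ (n : ℤ) ≤ |y.2 - x.2| := by
  rcases h with h | h | h | h
  · left
    rw [le_abs]
    right
    linarith
  · left
    rw [le_abs]
    left
    linarith
  · right
    rw [le_abs]
    right
    linarith
  · right
    rw [le_abs]
    left
    linarith

/-- the conditions on one side -/
theorem side {ε d ρ : ℝ} (hε : 0 < ε) (hρ : 0 < ρ) (hρd : ρ ≤ d) (hd : 64 * ε ≤ d) :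
    1 ≤ ir ε ρ ⌊d / (8 * ε)⌋₊ ∧ ir ε ρ ⌊d / (8 * ε)⌋₊ ≤ ⌊d / (8 * ε)⌋₊ ∧
    ia ε ρ ≤ ir ε ρ ⌊d / (8 * ε)⌋₊ ∧ ia ε ρ ≤ ⌊d / (8 * ε)⌋₊ / 2 ∧
    (ir ε ρ ⌊d / (8 * ε)⌋₊ ≤ 700 * ia ε ρ ∨ (ia ε ρ = 0 ∧ ir ε ρ ⌊d / (8 * ε)⌋₊ ≤ 700)) := by
  obtain ⟨R, a, N, hR, ha, hr, h8, b1, b2, b3, b4, b5, b6, h2, b7⟩ := nums hε hρ hρd hd
  rw [hr, ← hR, ← ha]
  have k1 : 2 * a ≤ R := by
    have : 64 * ε * ((2 * a : ℕ) : ℝ) ≤ 64 * ε * (R : ℝ) := by
      push_cast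
      linarith
    exact_mod_cast le_of_mul_le_mul_left this (by positivity)
  have k2 : a ≤ N := by
    have : 32 * ε * (a : ℝ) ≤ 32 * ε * (N : ℝ) := by
      linarith
    exact_mod_cast le_of_mul_le_mul_left this (by positivity)
  refine ⟨le_min (by omega) (by omega), min_le_right _ _, le_min k2 (by omega), by omega, ?_⟩
  rcases Nat.eq_zero_or_pos a with h0 | h0
  · right
    refine ⟨h0, (min_le_left _ _).trans ?_⟩
    rw [h0] at b4
    have : ε * (N : ℝ) ≤ ε * ((700 : ℕ) : ℝ) := by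
      push_cast at b4 ⊢
      linarith
    exact_mod_cast le_of_mul_le_mul_left this hε
  · left
    refine (min_le_left _ _).trans ?_
    have h1 : (1 : ℝ) ≤ a := by exact_mod_cast h0
    have h3 : ε * 1 ≤ ε * (a : ℝ) := mul_le_mul_of_nonneg_left h1 hε.le
    have : ε * (N : ℝ) ≤ ε * ((700 * a : ℕ) : ℝ) := by
      push_cast
      linarith
    exact_mod_cast le_of_mul_le_mul_left this hε

/-- the attachment -/
theorem att {ε : ℝ} (hε : 0 < ε) {K : Set ℂ} {z : ℂ} {d ρ : ℝ} (hd : 64 * ε ≤ d)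
    (hS : Size K z d ρ) (hK : Chain ε K z ρ) : Att (near ε K) (nv ε z) (ia ε ρ) := by
  obtain ⟨R, a, N, hR, ha, hr, h8, b1, b2, b3, b4, b5, b6, h2, b7⟩ := nums hε hS.pos hS.le hd
  refine ⟨nv_near hε hS.mem, fun h1 => ?_⟩
  obtain ⟨x, hx, hdx, hreach⟩ := hK
  rw [← ha] at h1 ⊢
  refine ⟨nv ε x, ?_, hreach⟩
  have hρ := hS.pos
  have h3 : (1 : ℝ) ≤ a := by exact_mod_cast h1
  have h4 : ε * 1 ≤ ε * (a : ℝ) := mul_le_mul_of_nonneg_left h3 hε.le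
  have h5 := lat_far hε (r := ρ / 2) (e1 := ε / 2) (e2 := ε / 2) (by positivity)
    (by rw [dist_comm]; exact hdx) (nv_abs hε z) (nv_abs hε x) (n := 2 * a) (by
      push_cast
      linarith)
  have h6 := abs_of_far h5
  push_cast at h6
  exact h6

/-- all vertices of a small set are close -/
theorem small {ε : ℝ} (hε : 0 < ε) {K : Set ℂ} {z : ℂ} {d ρ : ℝ} (hd : 64 * ε ≤ d)
    (hS : Size K z d ρ) : ⌊d / (8 * ε)⌋₊ ≤ ir ε ρ ⌊d / (8 * ε)⌋₊ ∨ ∀ u ∈ near ε K,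
      |u.1 - (nv ε z).1| ≤ ir ε ρ ⌊d / (8 * ε)⌋₊ ∧ |u.2 - (nv ε z).2| ≤ ir ε ρ ⌊d / (8 * ε)⌋₊ := by
  obtain ⟨R, a, N, hR, ha, hr, h8, b1, b2, b3, b4, b5, b6, h2, b7⟩ := nums hε hS.pos hS.le hd
  rw [hr, ← hR]
  rcases le_total R N with h | h
  · left
    rw [min_eq_right h]
  · rw [min_eq_left h]
    rcases hS.bd with h3 | h3
    · left
      have h4 : ε * (R : ℝ) ≤ ε * (N : ℝ) := by
        rw [h3] at b5
        have : 0 ≤ ε * (R : ℝ) := by positivity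
        linarith
      exact_mod_cast le_of_mul_le_mul_left h4 hε
    · right
      rintro u ⟨x, hx, hux⟩
      have h4 : dist z x ≤ ρ := by rw [dist_comm]; exact h3 hx
      have h5 := lat_close hε h4 (nv_abs hε z) (near_coord hux) (n := N) (by linarith)
      rw [abs_sub_comm u.1, abs_sub_comm u.2]
      exact h5

/-- the vertices of the other set are far -/
theorem farv {ε : ℝ} (hε : 0 < ε) {L : Set ℂ} {z : ℂ} {d : ℝ} (hd : 64 * ε ≤ d)
    (hL : ∀ y ∈ L, d ≤ dist z y) : ∀ u ∈ near ε L,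
      ((⌊d / (8 * ε)⌋₊ : ℕ) : ℤ) ≤ |u.1 - (nv ε z).1| ∨
      ((⌊d / (8 * ε)⌋₊ : ℕ) : ℤ) ≤ |u.2 - (nv ε z).2| := by
  rintro u ⟨y, hy, huy⟩
  have hd0 : 0 < d := by linarith
  have h8 : 0 < 8 * ε := by positivity
  have h1 : (⌊d / (8 * ε)⌋₊ : ℝ) ≤ d / (8 * ε) := Nat.floor_le (by positivity)
  rw [le_div_iff₀ h8] at h1
  exact abs_of_far (lat_far hε hd0.le (hL y hy) (nv_abs hε z) (near_coord huy) (by linarith))

theorem ge : S_GE := by
  intro ε K L z w ρ σ hε hK hL hSK hSL hd h64 hzw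
  have hd0 : 0 < dist z w := hSK.pos.trans_le hSK.le
  obtain ⟨k1, k2, k3, k4, k5⟩ := side hε hSK.pos hSK.le h64
  obtain ⟨l1, l2, l3, l4, l5⟩ := side hε hSL.pos hSL.le h64
  obtain ⟨R, a, N, hR, ha, hr, h8, b1, b2, b3, b4, b5, b6, h2, b7⟩ :=
    nums hε hSK.pos hSK.le h64
  have c1 : dist z w + 2 * ε ≤ ε * ((⌈dist z w / ε⌉₊ + 2 : ℕ) : ℝ) := by
    have h1 := Nat.le_ceil (dist z w / ε)
    rw [div_le_iff₀ hε] at h1
    push_cast
    linarith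
  have c2 : ε * ((⌈dist z w / ε⌉₊ + 2 : ℕ) : ℝ) ≤ dist z w + 3 * ε := by
    have h1 := (Nat.ceil_lt_add_one (show 0 ≤ dist z w / ε by positivity)).le
    have h2 : ε * (⌈dist z w / ε⌉₊ : ℝ) ≤ ε * (dist z w / ε + 1) :=
      mul_le_mul_of_nonneg_left h1 hε.le
    have h3 : ε * (dist z w / ε + 1) = dist z w + ε := by field_simp
    push_cast
    linarith
  have hclose := lat_close hε (r := dist z w) (e1 := ε / 2) (e2 := ε / 2) (z := z) (w := w)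
    le_rfl (nv_abs hε z) (nv_abs hε w) (n := ⌈dist z w / ε⌉₊ + 2) (by linarith)
  have hfar := lat_far hε (r := dist z w) (e1 := ε / 2) (e2 := ε / 2) (z := z) (w := w)
    hd0.le le_rfl (nv_abs hε z) (nv_abs hε w) (n := 4 * R) (by
      push_cast
      linarith)
  have hfar' := abs_of_far hfar
  refine ⟨⟨k1, l1, k2, l2, ?_, ?_, ?_, k3, l3, k4, l4, k5, l5, ?_, ?_, hzw, hclose.1, hclose.2,
    ?_⟩, ⟨att hε h64 hSK hK, att hε h64 hSL hL, small hε h64 hSK, small hε h64 hSL, ?_, ?_⟩⟩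
  · rw [← hR]
    omega
  · rw [← hR]
    omega
  · rw [← hR]
    omega
  · rw [← hR]
    have : ε * ((4 * R : ℕ) : ℝ) ≤ ε * ((⌈dist z w / ε⌉₊ + 2 : ℕ) : ℝ) := by
      refine le_trans ?_ c1
      push_cast
      linarith
    exact_mod_cast le_of_mul_le_mul_left this hε
  · rw [← hR]
    have : ε * ((⌈dist z w / ε⌉₊ + 2 : ℕ) : ℝ) ≤ ε * ((700 * R : ℕ) : ℝ) := by
      refine le_trans c2 ?_
      push_cast
      linarith
    exact_mod_cast le_of_mul_le_mul_left this hε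
  · rw [← hR, abs_sub_comm (nv ε z).1, abs_sub_comm (nv ε z).2]
    push_cast at hfar'
    exact hfar'
  · exact farv hε h64 fun y hy => hd z hSK.mem y hy
  · exact farv hε h64 fun x hx => by rw [dist_comm w x]; exact hd x hx w hSL.mem

theorem rt : S_RT := by
  intro ε d ρ hε hρ hρd hερ hd
  obtain ⟨R, a, N, hR, ha, hr, h8, b1, b2, b3, b4, b5, b6, h2, b7⟩ := nums hε hρ hρd hd
  rw [hr, ← hR]
  have hd0 : 0 < d := hρ.trans_le hρd
  have hR0 : (0 : ℝ) < R := by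
    have : (8 : ℝ) ≤ R := by exact_mod_cast h8
    linarith
  have hN0 : (0 : ℝ) < N := by
    have : (2 : ℝ) ≤ N := by exact_mod_cast h2
    linarith
  have hm0 : (0 : ℝ) < ((min N R : ℕ) : ℝ) := by
    rcases le_total N R with h | h
    · rw [min_eq_left h]; exact hN0
    · rw [min_eq_right h]; exact hR0
  have he : ε ≤ ρ := by
    rcases hερ with h | h
    · exact h
    · rw [h]; linarith
  constructor
  · have h3 : ((min N R : ℕ) : ℝ) ≤ N := by exact_mod_cast min_le_left N R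
    rw [div_div, div_le_div_iff₀ (by positivity) hm0]
    have h4 : d * ((min N R : ℕ) : ℝ) ≤ d * N := mul_le_mul_of_nonneg_left h3 hd0.le
    refine h4.trans ?_
    have h5 : d * (ε * N) ≤ d * (4 * ρ) := mul_le_mul_of_nonneg_left (by linarith) hd0.le
    have h6 : 7 * d * ρ ≤ 64 * ε * R * ρ := mul_le_mul_of_nonneg_right b2 hρ.le
    have h7 : 0 < ρ * R := by positivity
    have : ε * (d * N) ≤ ε * (R * (ρ * 40)) := by nlinarith
    exact le_of_mul_le_mul_left this hε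
  · rw [div_le_div_iff₀ hm0 hρ]
    rcases le_total N R with h | h
    · rw [min_eq_left h]
      have h5 : d * (ρ + 2 * ε) ≤ d * (ε * N) := mul_le_mul_of_nonneg_left b5 hd0.le
      have h6 : 8 * ε * R * ρ ≤ d * ρ := mul_le_mul_of_nonneg_right b1 hρ.le
      have h7 : 0 < d * ε := by positivity
      have : ε * (R * ρ) ≤ ε * (d * N) := by nlinarith
      exact le_of_mul_le_mul_left this hε
    · rw [min_eq_right h]
      rw [mul_comm]
      exact mul_le_mul_of_nonneg_right hρd hR0.le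

end Pool.Agent.Y155.NL
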